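import Mathlib

namespace Pool.Agent.H.MP_9a52ae_co

open Finset

def ext {n : ℕ} (π : Equiv.Perm (Fin n)) (j : ℕ) : ℕ :=
  if h : j < n then ((π ⟨j, h⟩ : Fin n) : ℕ) else 0

lemma ext_fin {n : ℕ} (π : Equiv.Perm (Fin n)) (j : Fin n) : ext π j = π j := by
  simp [ext]

lemma ext_lt {n : ℕ} (π : Equiv.Perm (Fin n)) (j : ℕ) (h : j < n) : ext π j = π ⟨j, h⟩ := by
  simp [ext, h]

open Classical in
noncomputable def cnt (n : ℕ) (E : (ℕ → ℕ) → Prop) : ℝ :=
  ∑ π : Equiv.Perm (Fin n), if E (ext π) then 1 else 0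

noncomputable def pr (n : ℕ) (E : (ℕ → ℕ) → Prop) : ℝ := cnt n E / n.factorial

def Loc (n : ℕ) (E : (ℕ → ℕ) → Prop) : Prop :=
  ∀ x y : ℕ → ℕ, (∀ i j, i < n → j < n → (x i < x j ↔ y i < y j)) → E x → E y

lemma Loc.iff {n : ℕ} {E : (ℕ → ℕ) → Prop} (h : Loc n E) (x y : ℕ → ℕ)
    (hxy : ∀ i j, i < n → j < n → (x i < x j ↔ y i < y j)) : E x ↔ E y :=
  ⟨h x y hxy, h y x (fun i j a b => (hxy i j a b).symm)⟩

open Classical in
lemma key {n : ℕ} {E : (ℕ → ℕ) → Prop} (h : Loc n E) (u : Fin n → ℕ) (hu : Function.Injective u)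
    (x : ℕ → ℕ) (hx : ∀ i : Fin n, x i = u i) :
    (∑ τ : Equiv.Perm (Fin n), if E (fun j => x (ext τ j)) then (1 : ℝ) else 0) = cnt n E := by
  have hm : StrictMono (u ∘ Tuple.sort u) :=
    (Tuple.monotone_sort u).strictMono_of_injective (hu.comp (Tuple.sort u).injective)
  unfold cnt
  rw [← Equiv.sum_comp (Equiv.mulLeft (Tuple.sort u))]
  refine sum_congr rfl (fun τ _ => ?_)
  refine if_congr (h.iff _ _ (fun i j hi hj => ?_)) rfl rfl
  simp only [ext_lt _ _ hi, ext_lt _ _ hj, hx, Equiv.coe_mulLeft, Equiv.Perm.mul_apply]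
  exact hm.lt_iff_lt

def glue {l r : ℕ} (τ₁ : Equiv.Perm (Fin l)) (τ₂ : Equiv.Perm (Fin r)) : Equiv.Perm (Fin (l + r)) :=
  finSumFinEquiv.symm.trans ((Equiv.sumCongr τ₁ τ₂).trans finSumFinEquiv)

lemma glue_left {l r : ℕ} (π : Equiv.Perm (Fin (l + r))) (τ₁ : Equiv.Perm (Fin l))
    (τ₂ : Equiv.Perm (Fin r)) (j : ℕ) (hj : j < l) :
    ext (π * glue τ₁ τ₂) j = ext π (ext τ₁ j) := by
  rw [ext_lt _ _ (by omega : j < l + r), ext_lt τ₁ _ hj, ext_lt π _ (by have := (τ₁ ⟨j, hj⟩).2; omega)]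
  have : (⟨j, (by omega : j < l + r)⟩ : Fin (l + r)) = Fin.castAdd r ⟨j, hj⟩ := rfl
  rw [this, Equiv.Perm.mul_apply]
  simp only [glue, Equiv.trans_apply, finSumFinEquiv_symm_apply_castAdd, Equiv.sumCongr_apply,
    Sum.map_inl, finSumFinEquiv_apply_left]
  rfl

lemma glue_right {l r : ℕ} (π : Equiv.Perm (Fin (l + r))) (τ₁ : Equiv.Perm (Fin l))
    (τ₂ : Equiv.Perm (Fin r)) (j : ℕ) (hj : j < r) :
    ext (π * glue τ₁ τ₂) (l + j) = ext π (l + ext τ₂ j) := by
  rw [ext_lt _ _ (by omega : l + j < l + r), ext_lt τ₂ _ hj,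
    ext_lt π _ (by have := (τ₂ ⟨j, hj⟩).2; omega)]
  have : (⟨l + j, (by omega : l + j < l + r)⟩ : Fin (l + r)) = Fin.natAdd l ⟨j, hj⟩ := rfl
  rw [this, Equiv.Perm.mul_apply]
  simp only [glue, Equiv.trans_apply, finSumFinEquiv_symm_apply_natAdd, Equiv.sumCongr_apply,
    Sum.map_inr, finSumFinEquiv_apply_right]
  rfl

lemma indep {l r : ℕ} {E₁ E₂ : (ℕ → ℕ) → Prop} (h₁ : Loc l E₁) (h₂ : Loc r E₂) :
    pr (l + r) (fun x => E₁ x ∧ E₂ (fun j => x (l + j))) = pr l E₁ * pr r E₂ := by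
  classical
  have e1 : ∀ (τ₁ : Equiv.Perm (Fin l)) (τ₂ : Equiv.Perm (Fin r)),
      cnt (l + r) (fun x => E₁ x ∧ E₂ (fun j => x (l + j))) =
      ∑ π : Equiv.Perm (Fin (l + r)), (if E₁ (fun j => ext π (ext τ₁ j)) then (1 : ℝ) else 0) *
        (if E₂ (fun j => ext π (l + ext τ₂ j)) then (1 : ℝ) else 0) := by
    intro τ₁ τ₂
    unfold cnt
    rw [← Equiv.sum_comp (Equiv.mulRight (glue τ₁ τ₂))]
    refine sum_congr rfl (fun π _ => ?_)
    rw [ite_zero_mul_ite_zero, mul_one]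
    refine @if_congr _ _ _ (Classical.propDecidable _) _ _ _ _ _
      (and_congr (h₁.iff _ _ (fun i j hi hj => ?_)) (h₂.iff _ _ (fun i j hi hj => ?_))) rfl rfl
    · simp only [Equiv.coe_mulRight, glue_left π τ₁ τ₂ _ hi, glue_left π τ₁ τ₂ _ hj]
    · simp only [Equiv.coe_mulRight, glue_right π τ₁ τ₂ _ hi, glue_right π τ₁ τ₂ _ hj]
  have e2 : (l.factorial : ℝ) * (r.factorial * cnt (l + r)
      (fun x => E₁ x ∧ E₂ (fun j => x (l + j)))) =
      (l + r).factorial * (cnt l E₁ * cnt r E₂) := by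
    calc (l.factorial : ℝ) * (r.factorial * cnt (l + r) (fun x => E₁ x ∧ E₂ (fun j => x (l + j))))
        = ∑ τ₁ : Equiv.Perm (Fin l), ∑ τ₂ : Equiv.Perm (Fin r),
            cnt (l + r) (fun x => E₁ x ∧ E₂ (fun j => x (l + j))) := by
          simp [Fintype.card_perm]
      _ = ∑ τ₁ : Equiv.Perm (Fin l), ∑ τ₂ : Equiv.Perm (Fin r), ∑ π : Equiv.Perm (Fin (l + r)),
            (if E₁ (fun j => ext π (ext τ₁ j)) then (1 : ℝ) else 0) *
            (if E₂ (fun j => ext π (l + ext τ₂ j)) then (1 : ℝ) else 0) :=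
          sum_congr rfl (fun τ₁ _ => sum_congr rfl (fun τ₂ _ => e1 τ₁ τ₂))
      _ = ∑ π : Equiv.Perm (Fin (l + r)),
            (∑ τ₁ : Equiv.Perm (Fin l), (if E₁ (fun j => ext π (ext τ₁ j)) then (1 : ℝ) else 0)) *
            (∑ τ₂ : Equiv.Perm (Fin r),
              (if E₂ (fun j => ext π (l + ext τ₂ j)) then (1 : ℝ) else 0)) := by
          simp only [sum_mul_sum]
          rw [sum_comm]
          refine (sum_congr rfl (fun τ₂ _ => sum_comm)).trans ?_
          rw [sum_comm]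
          exact sum_congr rfl (fun π _ => sum_comm)
      _ = ∑ π : Equiv.Perm (Fin (l + r)), cnt l E₁ * cnt r E₂ := by
          refine sum_congr rfl (fun π _ => ?_)
          rw [key h₁ (fun i => (π (Fin.castAdd r i)).val) (fun a b e => by
              simpa using Fin.ext e) (ext π) (fun i => ext_lt π _ (by omega)),
            key h₂ (fun i => (π (Fin.natAdd l i)).val) (fun a b e => by
              simpa using Fin.ext e) (fun j => ext π (l + j)) (fun i => ext_lt π _ (by omega))]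
      _ = _ := by simp [Fintype.card_perm]
  unfold pr
  have a1 : (l.factorial : ℝ) ≠ 0 := by positivity
  have a2 : (r.factorial : ℝ) ≠ 0 := by positivity
  have a3 : ((l + r).factorial : ℝ) ≠ 0 := by positivity
  field_simp
  linarith

lemma pr_nonneg (n : ℕ) (E : (ℕ → ℕ) → Prop) : 0 ≤ pr n E := by
  unfold pr cnt
  exact div_nonneg (sum_nonneg (fun _ _ => by split_ifs <;> norm_num)) (by positivity)

lemma pr_true (n : ℕ) : pr n (fun _ => True) = 1 := by
  unfold pr cnt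
  simp [Fintype.card_perm, Nat.factorial_ne_zero]

lemma pr_mono (n : ℕ) (E E' : (ℕ → ℕ) → Prop) (h : ∀ π : Equiv.Perm (Fin n), E (ext π) → E' (ext π)) :
    pr n E ≤ pr n E' := by
  unfold pr cnt
  refine div_le_div_of_nonneg_right (sum_le_sum (fun π _ => ?_)) (by positivity)
  by_cases c : E (ext π)
  · rw [if_pos c, if_pos (h π c)]
  · rw [if_neg c]; split_ifs <;> norm_num

lemma pr_le_one (n : ℕ) (E : (ℕ → ℕ) → Prop) : pr n E ≤ 1 :=
  (pr_mono n E _ (fun _ _ => trivial)).trans (pr_true n).le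

lemma pr_congr (n : ℕ) (E E' : (ℕ → ℕ) → Prop) (h : ∀ x, E x ↔ E' x) : pr n E = pr n E' := by
  rw [show E = E' from funext (fun x => propext (h x))]

lemma pr_split (n : ℕ) (E E' : (ℕ → ℕ) → Prop) :
    pr n E = pr n (fun x => E x ∧ E' x) + pr n (fun x => E x ∧ ¬ E' x) := by
  unfold pr cnt
  rw [← add_div, ← sum_add_distrib]
  congr 1
  refine sum_congr rfl (fun π _ => ?_)
  by_cases a : E (ext π) <;> by_cases b : E' (ext π) <;> simp [a, b]

lemma pr_false (n : ℕ) : pr n (fun _ => False) = 0 := by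
  unfold pr cnt; simp

lemma pr_level (n h : ℕ) (lv : Fin n → Fin h) :
    1 ≤ (h : ℝ) ^ n * pr n (fun x => ∀ i j : Fin n, lv i < lv j → x i < x j) := by
  classical
  set ρ := Tuple.sort lv
  have hm : Monotone (lv ∘ ρ) := Tuple.monotone_sort lv
  set s := lv ∘ ρ with hs
  set good := univ.filter (fun π : Equiv.Perm (Fin n) => s ∘ π = lv) with hgood
  have h1 : (univ : Finset (Equiv.Perm (Fin n))).card ≤
      good.card * (univ : Finset (Fin n → Fin h)).card := by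
    refine card_le_mul_card_image_of_maps_to (f := fun π : Equiv.Perm (Fin n) => s ∘ π) (fun _ _ => mem_univ _) _
      (fun g _ => ?_)
    by_cases c : (univ.filter (fun π : Equiv.Perm (Fin n) => s ∘ π = g)).Nonempty
    · obtain ⟨π₀, h₀⟩ := c
      refine card_le_card_of_injOn (fun π => π * (π₀⁻¹ * ρ⁻¹)) (fun π hπ => ?_)
        (fun a _ b _ e => mul_right_cancel e)
      simp only [coe_filter, mem_univ, true_and, Set.mem_ofPred_eq, mem_filter, hgood] at hπ h₀ ⊢
      funext i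
      have := congrFun (hπ.trans h₀.symm) (π₀⁻¹ (ρ⁻¹ i))
      simpa [hs] using this
    · rw [not_nonempty_iff_eq_empty.1 c]; simp
  have h2 : (good.card : ℝ) ≤ cnt n (fun x => ∀ i j : Fin n, lv i < lv j → x i < x j) := by
    unfold cnt
    rw [hgood, card_filter]
    push_cast
    refine sum_le_sum (fun π _ => ?_)
    by_cases c : s ∘ π = lv
    · rw [if_pos c, if_pos]
      intro i j hij
      rw [ext_fin, ext_fin]
      rw [← c] at hij
      exact hm.reflect_lt hij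
    · rw [if_neg c]; split_ifs <;> norm_num
  simp only [card_univ, Fintype.card_perm, Fintype.card_fin, Fintype.card_fun] at h1
  have h3 : (n.factorial : ℝ) ≤ good.card * (h : ℝ) ^ n := by exact_mod_cast h1
  unfold pr
  rw [← mul_div_assoc, le_div_iff₀ (by positivity), one_mul]
  have : (0 : ℝ) ≤ (h : ℝ) ^ n := by positivity
  nlinarith

end Pool.Agent.H.MP_9a52ae_co
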