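import Mathlib
import Pool.Agent.H.MP_9a52ae_co.Prob

namespace Pool.Agent.H.MP_9a52ae_co

open Finset PowerSeries

def sg : Equiv.Perm (Fin 6) := ⟨![1, 4, 3, 0, 5, 2], ![3, 0, 5, 2, 1, 4], by decide, by decide⟩

def Occ (x : ℕ → ℕ) (i : ℕ) : Prop := ∀ a b : Fin 6, sg a < sg b ↔ x (i + a) < x (i + b)

def NoOcc (n q : ℕ) (x : ℕ → ℕ) : Prop := ∀ i, q ≤ i → i + 6 ≤ n → ¬ Occ x i

def All (S : List ℕ) (x : ℕ → ℕ) : Prop := ∀ i ∈ S, Occ x i

lemma occ_up {x : ℕ → ℕ} {i : ℕ} (h : Occ x i) : x i < x (i + 1) := (h 0 1).1 (by decide)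
lemma occ_d1 {x : ℕ → ℕ} {i : ℕ} (h : Occ x i) : x (i + 2) < x (i + 1) := (h 2 1).1 (by decide)
lemma occ_d2 {x : ℕ → ℕ} {i : ℕ} (h : Occ x i) : x (i + 3) < x (i + 2) := (h 3 2).1 (by decide)
lemma occ_d4 {x : ℕ → ℕ} {i : ℕ} (h : Occ x i) : x (i + 5) < x (i + 4) := (h 5 4).1 (by decide)

lemma loc_all (S : List ℕ) (p : ℕ) (h : ∀ i ∈ S, i ≤ p) : Loc (p + 6) (All S) := by
  intro x y hxy hx i hi a b
  have := h i hi
  rw [hx i hi a b]
  exact hxy _ _ (by omega) (by omega)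

lemma loc_no (n : ℕ) : Loc n (NoOcc n 0) := by
  intro x y hxy hx i h0 hi ho
  refine hx i h0 hi (fun a b => ?_)
  rw [ho a b]
  exact (hxy _ _ (by omega) (by omega)).symm

lemma no_shift (l r : ℕ) (x : ℕ → ℕ) : NoOcc r 0 (fun j => x (l + j)) ↔ NoOcc (l + r) l x := by
  constructor
  · intro h i hi hn ho
    obtain ⟨j, rfl⟩ := Nat.exists_eq_add_of_le hi
    refine h j (Nat.zero_le _) (by omega) (fun a b => ?_)
    simpa [add_assoc] using ho a b
  · intro h j _ hn ho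
    refine h (l + j) (by omega) (by omega) (fun a b => ?_)
    simpa [add_assoc] using ho a b

noncomputable def aa (n : ℕ) : ℝ := pr n (NoOcc n 0)
noncomputable def FF (S : List ℕ) (p : ℕ) : ℝ := pr (p + 6) (All S)
noncomputable def TT (S : List ℕ) (p r : ℕ) : ℝ :=
  pr (p + 6 + r) (fun x => All S x ∧ NoOcc (p + 6 + r) (p + 1) x)

lemma piece (S : List ℕ) (p r d : ℕ) :
    pr (p + 6 + r) (fun x => (All S x ∧ NoOcc (p + 6 + r) (p + d + 1) x) ∧
      (d ≤ r ∧ Occ x (p + d))) = if d ≤ r then TT ((p + d) :: S) (p + d) (r - d) else 0 := by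
  split_ifs with c
  · unfold TT
    rw [show p + d + 6 + (r - d) = p + 6 + r by omega]
    refine pr_congr _ _ _ (fun x => ?_)
    simp only [All, List.forall_mem_cons, c, true_and]
    tauto
  · rw [← pr_false (p + 6 + r)]
    exact pr_congr _ _ _ (fun x => by simp [c])

lemma no_step (n q : ℕ) (x : ℕ → ℕ) :
    (NoOcc n (q + 1) x ∧ ¬ (q + 6 ≤ n ∧ Occ x q)) ↔ NoOcc n q x := by
  constructor
  · rintro ⟨h1, h2⟩ i hi hn ho
    rcases Nat.eq_or_lt_of_le hi with rfl | c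
    · exact h2 ⟨hn, ho⟩
    · exact h1 i c hn ho
  · intro h
    exact ⟨fun i hi => h i (by omega), fun c => h q le_rfl c.1 c.2⟩

lemma recT (S : List ℕ) (p r : ℕ) (hp : p ∈ S) (h : ∀ i ∈ S, i ≤ p) :
    FF S p * aa r = TT S p r + (if 3 ≤ r then TT ((p + 3) :: S) (p + 3) (r - 3) else 0) +
      (if 5 ≤ r then TT ((p + 5) :: S) (p + 5) (r - 5) else 0) := by
  have e0 := indep (loc_all S p h) (loc_no r)
  unfold FF aa
  rw [← e0, ← piece S p r 3, ← piece S p r 5]
  simp only [no_shift]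
  rw [pr_split _ _ (fun x => 5 ≤ r ∧ Occ x (p + 5)), add_comm]
  congr 1
  rw [pr_split _ _ (fun x => 3 ≤ r ∧ Occ x (p + 3)), add_comm]
  have k54 : ∀ x, ((All S x ∧ NoOcc (p + 6 + r) (p + 6) x) ∧ ¬ (5 ≤ r ∧ Occ x (p + 5))) ↔
      (All S x ∧ NoOcc (p + 6 + r) (p + 3 + 1) x) := by
    intro x
    rw [and_assoc]
    refine and_congr_right (fun hA => ?_)
    have ho := hA p hp
    rw [← no_step _ (p + 3 + 1), ← no_step _ (p + 3 + 1 + 1)]
    have n4 : ¬ Occ x (p + 3 + 1) := fun c => by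
      have := occ_up c; have := occ_d4 ho
      simp only [add_assoc, Nat.reduceAdd] at *; omega
    simp only [n4, and_false, not_false_eq_true, and_true, add_assoc, Nat.reduceAdd,
      show p + 11 ≤ p + (6 + r) ↔ 5 ≤ r by omega]
  congr 1
  · refine pr_congr _ _ _ (fun x => ?_)
    rw [k54, and_assoc]
    refine and_congr_right (fun hA => ?_)
    have ho := hA p hp
    rw [← no_step _ (p + 1), ← no_step _ (p + 1 + 1), ← no_step _ (p + 1 + 1 + 1)]
    have n1 : ¬ Occ x (p + 1) := fun c => by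
      have := occ_up c; have := occ_d1 ho
      simp only [add_assoc, Nat.reduceAdd] at *; omega
    have n2 : ¬ Occ x (p + 2) := fun c => by
      have := occ_up c; have := occ_d2 ho
      simp only [add_assoc, Nat.reduceAdd] at *; omega
    simp only [n1, n2, and_false, not_false_eq_true, and_true, add_assoc, Nat.reduceAdd,
      show p + 9 ≤ p + (6 + r) ↔ 3 ≤ r by omega]
  · exact pr_congr _ _ _ (fun x => by rw [k54])

lemma recA (n : ℕ) : aa n = aa (n + 1) + if 5 ≤ n then TT [0] 0 (n - 5) else 0 := by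
  have e0 := indep (l := 1) (E₁ := fun _ => True) (fun _ _ _ _ => trivial) (loc_no n)
  rw [pr_true, one_mul] at e0
  unfold aa
  rw [← e0]
  simp only [no_shift, true_and]
  rw [add_comm 1 n, pr_split _ _ (fun x => 0 + 6 ≤ n + 1 ∧ Occ x 0), add_comm]
  congr 1
  · exact pr_congr _ _ _ (fun x => no_step _ 0 x)
  · split_ifs with c
    · unfold TT
      rw [show 0 + 6 + (n - 5) = n + 1 by omega]
      refine pr_congr _ _ _ (fun x => ?_)
      simp only [All, List.forall_mem_singleton, show 0 + 6 ≤ n + 1 by omega, true_and]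
      tauto
    · rw [← pr_false (n + 1)]
      exact pr_congr _ _ _ (fun x => by simp [show ¬ (6 ≤ n + 1) by omega])

lemma aa_zero : aa 0 = 1 := by
  rw [← pr_true 0]
  exact pr_congr _ _ _ (fun x => ⟨fun _ => trivial, fun _ i _ h => by omega⟩)

noncomputable def AA : ℝ⟦X⟧ := PowerSeries.mk aa
noncomputable def CC (S : List ℕ) (p : ℕ) : ℝ⟦X⟧ := PowerSeries.mk (TT S p) * AA⁻¹

lemma AA_inv : AA * AA⁻¹ = 1 :=
  PowerSeries.mul_inv_cancel _ (by simp [AA, aa_zero])

lemma recC (S : List ℕ) (p : ℕ) (hp : p ∈ S) (h : ∀ i ∈ S, i ≤ p) :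
    CC S p = C (FF S p) - X ^ 3 * CC ((p + 3) :: S) (p + 3) - X ^ 5 * CC ((p + 5) :: S) (p + 5) := by
  have : C (FF S p) * AA = PowerSeries.mk (TT S p) +
      X ^ 3 * PowerSeries.mk (TT ((p + 3) :: S) (p + 3)) +
      X ^ 5 * PowerSeries.mk (TT ((p + 5) :: S) (p + 5)) := by
    ext r
    simp only [AA, coeff_C_mul, coeff_mk, map_add, coeff_X_pow_mul']
    exact recT S p r hp h
  unfold CC
  linear_combination (-AA⁻¹) * this + C (FF S p) * AA_inv

lemma inv_eq : AA⁻¹ = 1 - X + X ^ 6 * CC [0] 0 := by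
  have : AA = 1 + X ^ 1 * AA - X ^ 6 * PowerSeries.mk (TT [0] 0) := by
    ext r
    simp only [AA, coeff_mk, map_add, map_sub, coeff_X_pow_mul', coeff_one]
    rcases r with _ | r
    · simp [aa_zero]
    · have := recA r
      simp only [show (6 ≤ r + 1) ↔ 5 ≤ r by omega, show r + 1 - 6 = r - 5 by omega,
        Nat.add_sub_cancel, show 1 ≤ r + 1 by omega, if_true, Nat.succ_ne_zero, if_false]
      linarith
  unfold CC
  linear_combination (-AA⁻¹) * this + (1 - X) * AA_inv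

noncomputable def DD (S : List ℕ) (p m : ℕ) : ℝ := (-1) ^ m * coeff m (CC S p)

lemma recD (S : List ℕ) (p m : ℕ) (hp : p ∈ S) (h : ∀ i ∈ S, i ≤ p) :
    DD S p m = (if m = 0 then FF S p else 0) +
      (if 3 ≤ m then DD ((p + 3) :: S) (p + 3) (m - 3) else 0) +
      (if 5 ≤ m then DD ((p + 5) :: S) (p + 5) (m - 5) else 0) := by
  unfold DD
  rw [recC S p hp h]
  simp only [map_sub, coeff_X_pow_mul', coeff_C, mul_sub]
  have e3 : 3 ≤ m → (-1 : ℝ) ^ m = -(-1) ^ (m - 3) := fun c => by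
    obtain ⟨k, rfl⟩ := Nat.exists_eq_add_of_le c
    rw [Nat.add_sub_cancel_left, pow_add]; norm_num
  have e5 : 5 ≤ m → (-1 : ℝ) ^ m = -(-1) ^ (m - 5) := fun c => by
    obtain ⟨k, rfl⟩ := Nat.exists_eq_add_of_le c
    rw [Nat.add_sub_cancel_left, pow_add]; norm_num
  by_cases c0 : m = 0
  · subst c0; simp
  by_cases c3 : 3 ≤ m
  · by_cases c5 : 5 ≤ m
    · simp only [c0, c3, c5, if_true, if_false]
      rw [sub_eq_add_neg, sub_eq_add_neg]
      congr 1
      · rw [e3 c3]; ring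
      · rw [e5 c5]; ring
    · simp only [c0, c3, c5, if_true, if_false]
      rw [e3 c3]; ring
  · simp [c0, c3, show ¬ 5 ≤ m by omega]

lemma cons_le (S : List ℕ) (p d : ℕ) (h : ∀ i ∈ S, i ≤ p) : ∀ i ∈ (p + d) :: S, i ≤ p + d := by
  intro i hi
  rcases List.mem_cons.1 hi with rfl | hi
  · exact le_rfl
  · have := h i hi; omega

lemma DD_bound (m : ℕ) : ∀ (S : List ℕ) (p : ℕ), p ∈ S → (∀ i ∈ S, i ≤ p) →
    0 ≤ DD S p m ∧ DD S p m ≤ 2 ^ m := by
  induction m using Nat.strong_induction_on with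
  | _ m ih =>
    intro S p hp h
    rw [recD S p m hp h]
    by_cases c0 : m = 0
    · subst c0
      simpa using ⟨pr_nonneg _ _, pr_le_one _ _⟩
    have hm : (2 : ℝ) ^ m = 2 * 2 ^ (m - 1) := by
      rw [← pow_succ', show m - 1 + 1 = m by omega]
    have pw : ∀ d, 1 ≤ d → (2 : ℝ) ^ (m - d) ≤ 2 ^ (m - 1) := fun d hd =>
      pow_le_pow_right₀ (by norm_num) (by omega)
    have i : ∀ d, 1 ≤ d → 0 ≤ (if d ≤ m then DD ((p + d) :: S) (p + d) (m - d) else 0) ∧
        (if d ≤ m then DD ((p + d) :: S) (p + d) (m - d) else 0) ≤ 2 ^ (m - 1) := by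
      intro d hd
      split_ifs with c
      · have := ih (m - d) (by omega) ((p + d) :: S) (p + d) (by simp) (cons_le S p d h)
        exact ⟨this.1, this.2.trans (pw d hd)⟩
      · exact ⟨le_rfl, by positivity⟩
    have i3 := i 3 (by norm_num)
    have i5 := i 5 (by norm_num)
    rw [if_neg c0]
    constructor <;> linarith [i3.1, i3.2, i5.1, i5.2]

def lv (i : ℕ) : Fin 8 := ![2, 5, 4, 1, 6, 3, 0, 7] ⟨i % 8, Nat.mod_lt _ (by norm_num)⟩

lemma lv_add (t c : ℕ) : lv (8 * t + c) = lv c := by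
  unfold lv; congr 2; omega

lemma FF_lower (S : List ℕ) (p : ℕ) (h : ∀ i ∈ S, i ≤ p) (h' : ∀ i ∈ S, i % 8 = 0 ∨ i % 8 = 3) :
    1 ≤ (8 : ℝ) ^ (p + 6) * FF S p := by
  refine le_trans (pr_level (p + 6) 8 (fun i => lv i)) ?_
  push_cast
  refine mul_le_mul_of_nonneg_left (pr_mono _ _ _ (fun π hπ i hi a b => ?_)) (by positivity)
  have hi' := h i hi
  have key : ∀ a b : Fin 6, sg a < sg b → ext π (i + a) < ext π (i + b) := by
    intro a b hab
    refine hπ ⟨i + a, by omega⟩ ⟨i + b, by omega⟩ ?_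
    show lv (i + a) < lv (i + b)
    rcases h' i hi with c | c
    · rw [show i = 8 * (i / 8) by omega, lv_add, lv_add]
      revert a b; decide
    · rw [show i = 8 * (i / 8) + 3 by omega, add_assoc, add_assoc, lv_add, lv_add]
      revert a b; decide
  refine ⟨key a b, fun c => ?_⟩
  rcases lt_trichotomy (sg a) (sg b) with k | k | k
  · exact k
  · rw [sg.injective k] at c; exact absurd c (lt_irrefl _)
  · exact absurd (key b a k) (not_lt.2 c.le)

lemma DD_lower (t : ℕ) : ∀ (S : List ℕ) (p : ℕ), p ∈ S → (∀ i ∈ S, i ≤ p) →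
    (∀ i ∈ S, i % 8 = 0 ∨ i % 8 = 3) → p % 8 = 0 → 1 ≤ (8 : ℝ) ^ (p + 8 * t + 6) * DD S p (8 * t) := by
  induction t with
  | zero =>
    intro S p hp h h' _
    rw [recD S p _ hp h]
    simpa using FF_lower S p h h'
  | succ t ih =>
    intro S p hp h h' h0
    have g1 := cons_le S p 3 h
    have g2 := cons_le _ (p + 3) 5 g1
    have i := ih ((p + 3 + 5) :: (p + 3) :: S) (p + 3 + 5) (by simp) g2 (by
      intro i hi
      simp only [List.mem_cons] at hi
      rcases hi with rfl | rfl | hi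
      · omega
      · omega
      · exact h' i hi) (by omega)
    rw [show p + 3 + 5 + 8 * t + 6 = p + 8 * (t + 1) + 6 by omega] at i
    refine le_trans i (mul_le_mul_of_nonneg_left ?_ (by positivity))
    rw [recD S p _ hp h, recD _ (p + 3) _ (by simp) g1]
    rw [if_neg (by omega), if_pos (by omega), if_neg (by omega), if_pos (by omega),
      if_pos (by omega), if_pos (by omega), show 8 * (t + 1) - 3 - 5 = 8 * t by omega]
    have b1 := (DD_bound (8 * (t + 1) - 3 - 3) _ _ (by simp) (cons_le _ (p + 3) 3 g1)).1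
    have b2 := (DD_bound (8 * (t + 1) - 5) _ _ (by simp) (cons_le S p 5 h)).1
    linarith

noncomputable def ww (n : ℕ) : ℝ := coeff n AA⁻¹

lemma ww_conv (n : ℕ) : ∑ p ∈ antidiagonal n, aa p.1 * ww p.2 = if n = 0 then 1 else 0 := by
  have := congrArg (coeff n) AA_inv
  rw [coeff_mul, coeff_one] at this
  simpa [AA, ww] using this

lemma ww_six (m : ℕ) : |ww (m + 6)| = DD [0] 0 m := by
  have h := (DD_bound m [0] 0 (by simp) (by simp)).1
  have : ww (m + 6) = coeff m (CC [0] 0) := by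
    unfold ww
    rw [inv_eq]
    simp [coeff_X_pow_mul', coeff_one, coeff_X]
  rw [this, ← abs_of_nonneg h]
  unfold DD
  rw [abs_mul, abs_pow]; simp

lemma ww_le (n : ℕ) : |ww n| ≤ 2 ^ n := by
  by_cases c : 6 ≤ n
  · obtain ⟨m, rfl⟩ := Nat.exists_eq_add_of_le' c
    rw [ww_six]
    exact (DD_bound m [0] 0 (by simp) (by simp)).2.trans (pow_le_pow_right₀ (by norm_num) (by omega))
  · unfold ww
    rw [inv_eq]
    simp only [map_add, map_sub, coeff_X_pow_mul', if_neg c, coeff_one, coeff_X]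
    have : (1 : ℝ) ≤ 2 ^ n := one_le_pow₀ (by norm_num)
    split_ifs <;> simp <;> linarith

lemma ww_ge (t : ℕ) : 1 ≤ (8 : ℝ) ^ (8 * t + 6) * |ww (8 * t + 6)| := by
  rw [ww_six]
  simpa using DD_lower t [0] 0 (by simp) (by simp) (by simp) (by simp)

end Pool.Agent.H.MP_9a52ae_co
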