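import Mathlib
import Pool.Agent.H.MP_9a52ae_co.Clus

namespace Pool.Agent.H.MP_9a52ae_co

open Finset Filter Topology

theorem not_entire (f : ℂ → ℂ) (hf : Differentiable ℂ f)
    (h : ∀ᶠ z in nhds (0 : ℂ), f z * (∑' n : ℕ, (aa n : ℂ) * z ^ n) = 1) : False := by
  have hsmall : ∀ᶠ z in nhds (0 : ℂ), ‖z‖ < 1 / 4 := by
    have := Metric.ball_mem_nhds (0 : ℂ) (by norm_num : (0 : ℝ) < 1 / 4)
    filter_upwards [this] with z hz
    simpa using hz
  have geo : ∀ (c : ℕ → ℝ), (∀ n, |c n| ≤ 2 ^ n) → ∀ z : ℂ, ‖z‖ < 1 / 4 →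
      Summable (fun n => ‖(c n : ℂ) * z ^ n‖) := by
    intro c hc z hz
    refine Summable.of_nonneg_of_le (fun _ => norm_nonneg _) (fun n => ?_)
      (summable_geometric_of_lt_one (by norm_num) (by norm_num : (1 / 2 : ℝ) < 1))
    rw [norm_mul, norm_pow, Complex.norm_real, Real.norm_eq_abs]
    calc |c n| * ‖z‖ ^ n ≤ 2 ^ n * (1 / 4) ^ n :=
          mul_le_mul (hc n) (pow_le_pow_left₀ (norm_nonneg _) hz.le n) (by positivity)
            (by positivity)
      _ = (1 / 2) ^ n := by rw [← mul_pow]; norm_num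
  have ha : ∀ n, |aa n| ≤ 2 ^ n := fun n => by
    unfold aa
    rw [abs_of_nonneg (pr_nonneg _ _)]
    exact (pr_le_one _ _).trans (one_le_pow₀ (by norm_num))
  have h1 : HasFPowerSeriesAt f (FormalMultilinearSeries.ofScalars ℂ (fun n => (ww n : ℂ))) 0 := by
    rw [hasFPowerSeriesAt_iff]
    filter_upwards [h, hsmall] with z h1 h2
    have s1 := geo aa ha z h2
    have s2 := geo ww ww_le z h2
    have e := tsum_mul_tsum_eq_tsum_sum_antidiagonal_of_summable_norm s1 s2
    have e2 : ∀ n, ∑ p ∈ antidiagonal n, (aa p.1 : ℂ) * z ^ p.1 * ((ww p.2 : ℂ) * z ^ p.2) =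
        if n = 0 then 1 else 0 := by
      intro n
      have : ∑ p ∈ antidiagonal n, (aa p.1 : ℂ) * z ^ p.1 * ((ww p.2 : ℂ) * z ^ p.2) =
          ((∑ p ∈ antidiagonal n, aa p.1 * ww p.2 : ℝ) : ℂ) * z ^ n := by
        push_cast
        rw [sum_mul]
        refine sum_congr rfl (fun p hp => ?_)
        rw [← mem_antidiagonal.1 hp]; ring
      rw [this, ww_conv]
      split_ifs with c <;> simp [c]
    simp only [e2, tsum_ite_eq] at e
    have e3 : f z = ∑' n : ℕ, (ww n : ℂ) * z ^ n := by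
      linear_combination (∑' n : ℕ, (ww n : ℂ) * z ^ n) * h1 - f z * e
    simp only [FormalMultilinearSeries.coeff_ofScalars, zero_add, smul_eq_mul, e3, mul_comm (z ^ _)]
    exact s2.of_norm.hasSum
  have h2 := hf.hasFPowerSeriesOnBall 0 (R := 1) one_pos
  have e := h1.eq_formalMultilinearSeries h2.hasFPowerSeriesAt
  rw [← e] at h2
  have h3 := (h2.hasSum (y := 8) (by simp)).summable.tendsto_atTop_zero
  simp only [FormalMultilinearSeries.apply_eq_pow_smul_coeff,
    FormalMultilinearSeries.coeff_ofScalars, smul_eq_mul] at h3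
  have h4 := (h3.norm.eventually (gt_mem_nhds (by simp : ‖(0 : ℂ)‖ < 1)))
  obtain ⟨N, hN⟩ := eventually_atTop.1 h4
  have h5 := hN (8 * N + 6) (by omega)
  rw [norm_mul, norm_pow, Complex.norm_real, Real.norm_eq_abs] at h5
  have h6 := ww_ge N
  have : ‖(8 : ℂ)‖ = 8 := by simp
  rw [this] at h5
  linarith

end Pool.Agent.H.MP_9a52ae_co
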